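import Pool.Agent.Helper90.ZD.Defs

/-!
# The coefficients of the test polynomial
-/

set_option autoImplicit false

open Finset

namespace Pool.Agent.Helper60.ZD

open Pool.Agent.Helper90.ZD

/-- Reindexing. -/
theorem sum_Icc_sym (M : ℕ) (f : ℕ → ℝ) :
    ∑ k ∈ Finset.Icc (-(M : ℤ)) M, f ((M : ℤ) + k).toNat = ∑ i ∈ range (2 * M + 1), f i := by
  refine Finset.sum_bij' (fun k _ => ((M : ℤ) + k).toNat) (fun i _ => (i : ℤ) - M) ?_ ?_ ?_ ?_ ?_
  · intro k hk
    rw [Finset.mem_Icc] at hk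
    rw [mem_range]
    omega
  · intro i hi
    rw [mem_range] at hi
    rw [Finset.mem_Icc]
    omega
  · intro k hk
    rw [Finset.mem_Icc] at hk
    omega
  · intro i hi
    omega
  · intro k _
    rfl

/-- P6b: sum of the absolute values. -/
theorem test_sum (M : ℕ) (E : Finset ℤ) (hE : ∀ l ∈ E, l ≠ 0) :
    ∑ k ∈ Finset.Icc (-(M : ℤ)) M, |tc M E k| ≤ ∏ l ∈ E, (1 + (M : ℝ) / |(l : ℝ)|) := by
  have h1 : ∀ k ∈ Finset.Icc (-(M : ℤ)) M, |tc M E k| ≤
      ((Nat.choose (2 * M) ((M : ℤ) + k).toNat : ℝ) / 4 ^ M) * ∏ l ∈ E, (1 + (M : ℝ) / |(l : ℝ)|) := by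
    intro k hk
    rw [Finset.mem_Icc] at hk
    unfold tc
    rw [abs_mul, abs_of_nonneg (by positivity), Finset.abs_prod]
    refine mul_le_mul_of_nonneg_left ?_ (by positivity)
    refine Finset.prod_le_prod (fun _ _ => abs_nonneg _) fun l hl => ?_
    have h2 : (0 : ℝ) < |(l : ℝ)| := abs_pos.mpr (by exact_mod_cast hE l hl)
    have h3 : |(k : ℝ)| ≤ M := by
      rw [abs_le]
      constructor
      · exact_mod_cast hk.1
      · exact_mod_cast hk.2
    calc |1 - (k : ℝ) / l| ≤ |(1 : ℝ)| + |(k : ℝ) / l| := abs_sub _ _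
      _ = 1 + |(k : ℝ)| / |(l : ℝ)| := by rw [abs_one, abs_div]
      _ ≤ 1 + (M : ℝ) / |(l : ℝ)| := by gcongr
  refine (Finset.sum_le_sum h1).trans ?_
  rw [← Finset.sum_mul]
  have h2 : ∑ k ∈ Finset.Icc (-(M : ℤ)) M, ((Nat.choose (2 * M) ((M : ℤ) + k).toNat : ℝ) / 4 ^ M) = 1 := by
    rw [← Finset.sum_div, sum_Icc_sym M (fun i => (Nat.choose (2 * M) i : ℝ))]
    have h3 : (∑ i ∈ range (2 * M + 1), (Nat.choose (2 * M) i : ℝ)) = 4 ^ M := by
      have h4 := Nat.sum_range_choose (2 * M)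
      have h5 : (2 : ℕ) ^ (2 * M) = 4 ^ M := by rw [pow_mul]; norm_num
      rw [h5] at h4
      exact_mod_cast h4
    rw [h3]
    exact div_self (by positivity)
  rw [h2, one_mul]

/-- P6c: the coefficient at `0`. -/
theorem tc_zero (M : ℕ) (E : Finset ℤ) : 1 / (2 * (M : ℝ) + 1) ≤ tc M E 0 := by
  unfold tc
  have h1 : ∏ l ∈ E, (1 - ((0 : ℤ) : ℝ) / (l : ℝ)) = 1 := by
    refine Finset.prod_eq_one fun l _ => ?_
    simp
  rw [h1, mul_one, add_zero, Int.toNat_natCast]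
  have h2 := Nat.four_pow_le_two_mul_add_one_mul_central_binom M
  rw [div_le_div_iff₀ (by positivity) (by positivity), one_mul]
  have h3 : ((4 ^ M : ℕ) : ℝ) ≤ (((2 * M + 1) * (2 * M).choose M : ℕ) : ℝ) := by exact_mod_cast h2
  push_cast at h3
  linarith

/-- P6d: zero coefficients. -/
theorem tc_mem (M : ℕ) (E : Finset ℤ) (l : ℤ) (hl : l ∈ E) (h0 : l ≠ 0) : tc M E l = 0 := by
  unfold tc
  rw [Finset.prod_eq_zero hl, mul_zero]
  have : (l : ℝ) ≠ 0 := by exact_mod_cast h0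
  rw [div_self this, sub_self]

/-- Different positive integers. -/
theorem factorial_le_prod (T : Finset ℕ) (hT : ∀ j ∈ T, 0 < j) : (T.card).factorial ≤ ∏ j ∈ T, j := by
  induction T using Finset.induction_on_max with
  | empty => simp
  | insert a s ha ih =>
    have hna : a ∉ s := fun h => lt_irrefl _ (ha a h)
    rw [Finset.prod_insert hna, Finset.card_insert_of_notMem hna, Nat.factorial_succ]
    have h1 : s ⊆ Ioo 0 a := fun j hj =>
      mem_Ioo.mpr ⟨hT j (Finset.mem_insert_of_mem hj), ha j hj⟩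
    have h2 := Finset.card_le_card h1
    rw [Nat.card_Ioo] at h2
    have h3 : 0 < a := hT a (Finset.mem_insert_self _ _)
    exact Nat.mul_le_mul (by omega) (ih fun j hj => hT j (Finset.mem_insert_of_mem hj))

/-- The product for one sign. -/
theorem prod_le_nat (M : ℕ) (T : Finset ℕ) (hT : ∀ j ∈ T, 0 < j ∧ j ≤ M) (θ : ℝ) (hθ : 0 < θ) :
    ∏ j ∈ T, (1 + 3 * (M : ℝ) / j) ≤ (1 / θ) ^ T.card * Real.exp (4 * M * θ) := by
  have h1 : ∏ j ∈ T, (1 + 3 * (M : ℝ) / j) ≤ ∏ j ∈ T, (4 * (M : ℝ) / j) := by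
    refine Finset.prod_le_prod (fun j _ => by positivity) fun j hj => ?_
    obtain ⟨h2, h3⟩ := hT j hj
    have h2' : (0 : ℝ) < j := by exact_mod_cast h2
    have h3' : (j : ℝ) ≤ M := by exact_mod_cast h3
    rw [le_div_iff₀ h2', add_mul, div_mul_cancel₀ _ h2'.ne']
    linarith
  refine h1.trans ?_
  rw [Finset.prod_div_distrib, Finset.prod_const]
  have h4 : ((T.card).factorial : ℝ) ≤ ∏ j ∈ T, (j : ℝ) := by
    rw [← Nat.cast_prod]
    exact_mod_cast factorial_le_prod T fun j hj => (hT j hj).1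
  have h5 : (0 : ℝ) < (T.card).factorial := by exact_mod_cast Nat.factorial_pos _
  calc (4 * (M : ℝ)) ^ T.card / ∏ j ∈ T, (j : ℝ) ≤ (4 * (M : ℝ)) ^ T.card / (T.card).factorial := by
        gcongr
    _ = (1 / θ) ^ T.card * ((4 * M * θ) ^ T.card / (T.card).factorial) := by
        rw [mul_pow (4 * (M : ℝ)) θ, one_div, inv_pow]
        field_simp
    _ ≤ (1 / θ) ^ T.card * Real.exp (4 * M * θ) := by
        gcongr
        exact Real.pow_div_factorial_le_exp _ (by positivity) _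

/-- P6e: the product. -/
theorem prod_le (M : ℕ) (E : Finset ℤ) (hE : ∀ l ∈ E, l ≠ 0 ∧ |l| ≤ M) (θ : ℝ) (hθ : 0 < θ)
    (hθ' : θ ≤ 1) (hc : (E.card : ℝ) ≤ θ * M) :
    ∏ l ∈ E, (1 + 3 * (M : ℝ) / |(l : ℝ)|)
      ≤ Real.exp (2 * θ * (4 + Real.log (1 / θ)) * M) := by
  classical
  have hside : ∀ S : Finset ℤ, S ⊆ E → Set.InjOn Int.natAbs (S : Set ℤ) →
      ∏ l ∈ S, (1 + 3 * (M : ℝ) / |(l : ℝ)|) ≤ (1 / θ) ^ S.card * Real.exp (4 * M * θ) := by
    intro S hS hinj
    have h1 : ∏ l ∈ S, (1 + 3 * (M : ℝ) / |(l : ℝ)|) =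
        ∏ j ∈ S.image Int.natAbs, (1 + 3 * (M : ℝ) / j) := by
      rw [Finset.prod_image hinj]
      refine Finset.prod_congr rfl fun l _ => ?_
      rw [Nat.cast_natAbs, Int.cast_abs]
    rw [h1, ← Finset.card_image_of_injOn hinj]
    refine prod_le_nat M _ ?_ θ hθ
    intro j hj
    obtain ⟨l, hl, rfl⟩ := mem_image.mp hj
    obtain ⟨h2, h3⟩ := hE l (hS hl)
    constructor
    · exact Int.natAbs_pos.mpr h2
    · rw [Int.abs_eq_natAbs] at h3
      exact_mod_cast h3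
  have hp := hside (E.filter (fun l => 0 < l)) (Finset.filter_subset _ _) (by
    intro x hx y hy hxy
    rw [Finset.coe_filter] at hx hy
    have hx' := hx.2
    have hy' := hy.2
    omega)
  have hn := hside (E.filter (fun l => ¬ 0 < l)) (Finset.filter_subset _ _) (by
    intro x hx y hy hxy
    rw [Finset.coe_filter] at hx hy
    have hx' := hx.2
    have hy' := hy.2
    omega)
  rw [← Finset.prod_filter_mul_prod_filter_not E (fun l => 0 < l)]
  have hpos : ∀ S : Finset ℤ, 0 ≤ ∏ l ∈ S, (1 + 3 * (M : ℝ) / |(l : ℝ)|) := fun S =>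
    Finset.prod_nonneg fun _ _ => by positivity
  have hθ1 : 1 ≤ 1 / θ := by
    rw [le_div_iff₀ hθ, one_mul]
    exact hθ'
  calc _ ≤ ((1 / θ) ^ (E.filter (fun l => 0 < l)).card * Real.exp (4 * M * θ)) *
        ((1 / θ) ^ (E.filter (fun l => ¬ 0 < l)).card * Real.exp (4 * M * θ)) :=
        mul_le_mul hp hn (hpos _) (by positivity)
    _ = (1 / θ) ^ E.card * Real.exp (8 * M * θ) := by
        rw [← Finset.card_filter_add_card_filter_not (s := E) (fun l => 0 < l), pow_add]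
        have : (8 : ℝ) * M * θ = 4 * M * θ + 4 * M * θ := by ring
        rw [this, Real.exp_add]
        ring
    _ = Real.exp (E.card * Real.log (1 / θ) + 8 * M * θ) := by
        rw [Real.exp_add, ← Real.log_pow, Real.exp_log (by positivity)]
    _ ≤ Real.exp (2 * θ * (4 + Real.log (1 / θ)) * M) := by
        apply Real.exp_le_exp.mpr
        have h1 : 0 ≤ Real.log (1 / θ) := Real.log_nonneg hθ1
        have h2 : (E.card : ℝ) * Real.log (1 / θ) ≤ θ * M * Real.log (1 / θ) :=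
          mul_le_mul_of_nonneg_right hc h1
        have h3 : 0 ≤ θ * M * Real.log (1 / θ) := by positivity
        nlinarith

end Pool.Agent.Helper60.ZD
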