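import Mathlib

/-!
# Steering: a prime `q` for which the multiples `q a / k`, `a ∈ A`, meet every arc
-/

set_option autoImplicit false

namespace Pool.Agent.Helper60.ZD

open Finset Complex

/-- The character. -/
noncomputable def ex (x : ℝ) : ℂ := Complex.exp (I * ((2 * Real.pi * x : ℝ) : ℂ))

theorem ex_zero : ex 0 = 1 := by simp [ex]

theorem ex_add (x y : ℝ) : ex (x + y) = ex x * ex y := by
  unfold ex
  rw [← Complex.exp_add]
  congr 1
  push_cast
  ring

theorem norm_ex (x : ℝ) : ‖ex x‖ = 1 := by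
  unfold ex
  rw [mul_comm]
  exact Complex.norm_exp_ofReal_mul_I _

theorem ex_ne_zero (x : ℝ) : ex x ≠ 0 := Complex.exp_ne_zero _

theorem ex_neg (x : ℝ) : ex (-x) = (ex x)⁻¹ := by
  apply eq_inv_of_mul_eq_one_left
  rw [← ex_add, neg_add_cancel, ex_zero]

theorem conj_ex (x : ℝ) : (starRingEnd ℂ) (ex x) = ex (-x) := by
  rw [ex_neg, Complex.inv_def, Complex.normSq_eq_norm_sq, norm_ex]
  simp

theorem ex_nat_mul (n : ℕ) (x : ℝ) : ex (n * x) = ex x ^ n := by
  induction n with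
  | zero => simp [ex_zero]
  | succ n ih =>
    rw [pow_succ, ← ih, ← ex_add]
    congr 1
    push_cast
    ring

theorem ex_int (z : ℤ) : ex z = 1 := by
  unfold ex
  rw [Complex.exp_eq_one_iff]
  exact ⟨z, by push_cast; ring⟩

theorem norm_ex_sub_one {x : ℝ} (hx : |x| ≤ 1 / 2) : 4 * |x| ≤ ‖ex x - 1‖ := by
  unfold ex
  rw [Complex.norm_exp_I_mul_ofReal_sub_one]
  have h1 : 2 * Real.pi * x / 2 = Real.pi * x := by ring
  rw [h1, Real.norm_eq_abs, abs_mul, abs_two]
  have h2 : |Real.sin (Real.pi * x)| = Real.sin (Real.pi * |x|) := by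
    have hpi := Real.pi_pos
    rcases abs_cases x with ⟨h, h'⟩ | ⟨h, h'⟩
    · rw [h]
      have : 0 ≤ Real.pi * x := by positivity
      apply abs_of_nonneg
      apply Real.sin_nonneg_of_nonneg_of_le_pi this
      rw [h] at hx
      nlinarith
    · rw [h, mul_neg, Real.sin_neg]
      apply abs_of_nonpos
      rw [h] at hx
      have h3 : 0 ≤ Real.sin (Real.pi * -x) := by
        apply Real.sin_nonneg_of_nonneg_of_le_pi
        · nlinarith
        · nlinarith
      rw [mul_neg, Real.sin_neg] at h3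
      linarith
  rw [h2]
  have h3 := Real.mul_le_sin (x := Real.pi * |x|) (by positivity) (by nlinarith [Real.pi_pos])
  have h4 : 2 / Real.pi * (Real.pi * |x|) = 2 * |x| := by
    field_simp
  rw [h4] at h3
  linarith

/-- Geometric sums. -/
theorem norm_sum_range {x : ℝ} (hx : |x| ≤ 1 / 2) (hx0 : x ≠ 0) (n : ℕ) :
    ‖∑ i ∈ range n, ex x ^ i‖ ≤ 1 / (2 * |x|) := by
  have hxp : 0 < |x| := abs_pos.mpr hx0
  have h1 := norm_ex_sub_one hx
  have h2 : (∑ i ∈ range n, ex x ^ i) * (ex x - 1) = ex x ^ n - 1 := geom_sum_mul _ _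
  have h3 : ‖∑ i ∈ range n, ex x ^ i‖ * ‖ex x - 1‖ ≤ 2 := by
    rw [← norm_mul, h2]
    calc ‖ex x ^ n - 1‖ ≤ ‖ex x ^ n‖ + ‖(1 : ℂ)‖ := norm_sub_le _ _
      _ = 2 := by rw [norm_pow, norm_ex, one_pow, norm_one]; norm_num
  rw [le_div_iff₀ (by positivity)]
  have h4 : ‖∑ i ∈ range n, ex x ^ i‖ * (4 * |x|) ≤ 2 :=
    (mul_le_mul_of_nonneg_left h1 (norm_nonneg _)).trans h3
  linarith

theorem norm_sum_Ioc {x : ℝ} (hx : |x| ≤ 1 / 2) (hx0 : x ≠ 0) (m0 m : ℕ) :
    ‖∑ q ∈ Ioc m0 m, ex (q * x)‖ ≤ 1 / (2 * |x|) := by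
  have h1 : ∑ q ∈ Ioc m0 m, ex (q * x) = ex x ^ (m0 + 1) * ∑ i ∈ range (m - m0), ex x ^ i := by
    rw [Finset.mul_sum]
    have h2 : Ioc m0 m = Ico (m0 + 1) (m + 1) := by
      ext q
      simp only [mem_Ioc, mem_Ico]
      omega
    rw [h2, Finset.sum_Ico_eq_sum_range]
    have h3 : m + 1 - (m0 + 1) = m - m0 := by omega
    rw [h3]
    refine Finset.sum_congr rfl fun i _ => ?_
    rw [ex_nat_mul, pow_add]
  rw [h1, norm_mul, norm_pow, norm_ex, one_pow, one_mul]
  exact norm_sum_range hx hx0 _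

/-- The reciprocals of different positive integers. -/
theorem sum_inv_le (T : Finset ℕ) (hT : ∀ j ∈ T, 0 < j) :
    ∑ j ∈ T, (1 : ℝ) / j ≤ 1 + Real.log T.card := by
  have key : ∀ T : Finset ℕ, (∀ j ∈ T, 0 < j) → ∑ j ∈ T, (1 : ℝ) / j ≤ (harmonic T.card : ℝ) := by
    intro T
    induction T using Finset.induction_on_max with
    | empty => simp
    | insert a s ha ih =>
      intro hT
      have hna : a ∉ s := fun h => lt_irrefl _ (ha a h)
      rw [Finset.sum_insert hna, Finset.card_insert_of_notMem hna, harmonic_succ]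
      have h1 : s ⊆ Ioo 0 a := fun j hj =>
        mem_Ioo.mpr ⟨hT j (Finset.mem_insert_of_mem hj), ha j hj⟩
      have h2 := Finset.card_le_card h1
      rw [Nat.card_Ioo] at h2
      have h3 : 0 < a := hT a (Finset.mem_insert_self _ _)
      have h4 : s.card + 1 ≤ a := by omega
      have h5 : (1 : ℝ) / a ≤ (((s.card + 1 : ℕ) : ℚ)⁻¹ : ℚ) := by
        rw [one_div]
        push_cast
        have : ((s.card : ℝ) + 1) ≤ a := by exact_mod_cast h4
        gcongr
      have h6 := ih fun j hj => hT j (Finset.mem_insert_of_mem hj)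
      push_cast at h5 ⊢
      linarith
  refine (key T hT).trans ?_
  exact harmonic_le_one_add_log _

theorem sum_inv_sub_le (A : Finset ℕ) (a : ℕ) :
    ∑ b ∈ A with b ≠ a, (1 : ℝ) / |(a : ℝ) - b| ≤ 2 * (1 + Real.log A.card) := by
  classical
  have hsplit : (A.filter (fun b => b ≠ a)) = (A.filter (fun b => b < a)) ∪ (A.filter (fun b => a < b)) := by
    ext b
    simp only [mem_filter, mem_union]
    constructor
    · rintro ⟨h1, h2⟩
      rcases lt_or_gt_of_ne h2 with h | h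
      · exact Or.inl ⟨h1, h⟩
      · exact Or.inr ⟨h1, h⟩
    · rintro (⟨h1, h2⟩ | ⟨h1, h2⟩)
      · exact ⟨h1, h2.ne⟩
      · exact ⟨h1, h2.ne'⟩
  have hdisj : Disjoint (A.filter (fun b => b < a)) (A.filter (fun b => a < b)) := by
    rw [Finset.disjoint_left]
    intro b h1 h2
    rw [mem_filter] at h1 h2
    omega
  have hlog : ∀ n : ℕ, n ≤ A.card → Real.log n ≤ Real.log A.card := by
    intro n hn
    rcases Nat.eq_zero_or_pos n with h | h
    · rw [h, Nat.cast_zero, Real.log_zero]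
      exact Real.log_natCast_nonneg _
    · exact Real.log_le_log (by exact_mod_cast h) (by exact_mod_cast hn)
  have h1 : ∑ b ∈ A.filter (fun b => b < a), (1 : ℝ) / |(a : ℝ) - b| ≤ 1 + Real.log A.card := by
    have e1 : ∑ b ∈ A.filter (fun b => b < a), (1 : ℝ) / |(a : ℝ) - b| =
        ∑ j ∈ (A.filter (fun b => b < a)).image (fun b => a - b), (1 : ℝ) / j := by
      rw [Finset.sum_image]
      · refine Finset.sum_congr rfl fun b hb => ?_
        have hb' := (mem_filter.mp hb).2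
        rw [Nat.cast_sub hb'.le, abs_of_pos]
        have : (b : ℝ) < a := by exact_mod_cast hb'
        linarith
      · intro x hx y hy hxy
        have hx' := (mem_filter.mp hx).2
        have hy' := (mem_filter.mp hy).2
        simp only at hxy
        omega
    rw [e1]
    refine (sum_inv_le _ ?_).trans ?_
    · intro j hj
      obtain ⟨b, hb, rfl⟩ := mem_image.mp hj
      have hb' := (mem_filter.mp hb).2
      omega
    · have h2 := hlog _ ((Finset.card_image_le (s := A.filter (fun b => b < a)) (f := fun b => a - b)).trans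
        (Finset.card_filter_le _ _))
      linarith
  have h2 : ∑ b ∈ A.filter (fun b => a < b), (1 : ℝ) / |(a : ℝ) - b| ≤ 1 + Real.log A.card := by
    have e1 : ∑ b ∈ A.filter (fun b => a < b), (1 : ℝ) / |(a : ℝ) - b| =
        ∑ j ∈ (A.filter (fun b => a < b)).image (fun b => b - a), (1 : ℝ) / j := by
      rw [Finset.sum_image]
      · refine Finset.sum_congr rfl fun b hb => ?_
        have hb' := (mem_filter.mp hb).2
        rw [Nat.cast_sub hb'.le, abs_sub_comm, abs_of_pos]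
        have : (a : ℝ) < b := by exact_mod_cast hb'
        linarith
      · intro x hx y hy hxy
        have hx' := (mem_filter.mp hx).2
        have hy' := (mem_filter.mp hy).2
        simp only at hxy
        omega
    rw [e1]
    refine (sum_inv_le _ ?_).trans ?_
    · intro j hj
      obtain ⟨b, hb, rfl⟩ := mem_image.mp hj
      have hb' := (mem_filter.mp hb).2
      omega
    · have h2 := hlog _ ((Finset.card_image_le (s := A.filter (fun b => a < b)) (f := fun b => b - a)).trans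
        (Finset.card_filter_le _ _))
      linarith
  rw [hsplit, Finset.sum_union hdisj]
  linarith

/-- The exponential sum. -/
noncomputable def es (A : Finset ℕ) (k : ℕ) (h q : ℕ) : ℂ := ∑ a ∈ A, ex ((h : ℝ) * q * a / k)

/-- The second moment. -/
theorem second_moment (A : Finset ℕ) (k H : ℕ) (hk : 0 < k) (hA : ∀ a ∈ A, 2 * H * a ≤ k) (m0 m : ℕ)
    (h : ℕ) (h1 : 1 ≤ h) (hH : h ≤ H) :
    ∑ q ∈ Ioc m0 m, ‖es A k h q‖ ^ 2 ≤
      A.card * ((m - m0 : ℕ) + k * (1 + Real.log A.card)) := by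
  classical
  have e1 : ((∑ q ∈ Ioc m0 m, ‖es A k h q‖ ^ 2 : ℝ) : ℂ) =
      ∑ a ∈ A, ∑ b ∈ A, ∑ q ∈ Ioc m0 m, ex (q * ((h : ℝ) * ((a : ℝ) - b) / k)) := by
    push_cast
    have e2 : ∀ q ∈ Ioc m0 m, ((‖es A k h q‖ : ℂ)) ^ 2 =
        ∑ a ∈ A, ∑ b ∈ A, ex (q * ((h : ℝ) * ((a : ℝ) - b) / k)) := by
      intro q _
      have e3 : ((‖es A k h q‖ : ℂ)) ^ 2 = es A k h q * (starRingEnd ℂ) (es A k h q) := by
        rw [Complex.mul_conj, Complex.normSq_eq_norm_sq]
        push_cast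
        rfl
      rw [e3]
      unfold es
      rw [map_sum, Finset.sum_mul_sum]
      refine Finset.sum_congr rfl fun a _ => Finset.sum_congr rfl fun b _ => ?_
      rw [conj_ex, ← ex_add]
      congr 1
      ring
    rw [Finset.sum_congr rfl e2, Finset.sum_comm]
    refine Finset.sum_congr rfl fun a _ => ?_
    rw [Finset.sum_comm]
  have hk' : (0 : ℝ) < k := by exact_mod_cast hk
  have h0 : (0 : ℝ) < h := by exact_mod_cast h1
  have e4 : ∀ a ∈ A, ∑ b ∈ A, ‖∑ q ∈ Ioc m0 m, ex (q * ((h : ℝ) * ((a : ℝ) - b) / k))‖ ≤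
      (m - m0 : ℕ) + k * (1 + Real.log A.card) := by
    intro a ha
    rw [← Finset.sum_filter_add_sum_filter_not A (fun b => b ≠ a)]
    have e5 : ∑ b ∈ A with ¬ (b ≠ a), ‖∑ q ∈ Ioc m0 m, ex (q * ((h : ℝ) * ((a : ℝ) - b) / k))‖ ≤
        (m - m0 : ℕ) := by
      have e6 : A.filter (fun b => ¬ (b ≠ a)) = {a} := by
        ext b
        simp only [mem_filter, mem_singleton, not_not]
        exact ⟨fun h => h.2, fun h => ⟨h ▸ ha, h⟩⟩
      rw [e6, Finset.sum_singleton, sub_self, mul_zero, zero_div]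
      simp only [mul_zero, ex_zero, Finset.sum_const, Nat.card_Ioc, nsmul_eq_mul, mul_one]
      simp
    have e7 : ∑ b ∈ A with b ≠ a, ‖∑ q ∈ Ioc m0 m, ex (q * ((h : ℝ) * ((a : ℝ) - b) / k))‖ ≤
        k * (1 + Real.log A.card) := by
      have e8 : ∀ b ∈ A.filter (fun b => b ≠ a),
          ‖∑ q ∈ Ioc m0 m, ex (q * ((h : ℝ) * ((a : ℝ) - b) / k))‖ ≤
            k / 2 * (1 / |(a : ℝ) - b|) := by
        intro b hb
        rw [mem_filter] at hb
        have hab : (a : ℝ) - b ≠ 0 := by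
          rw [sub_ne_zero]
          exact_mod_cast (Ne.symm hb.2)
        have hab' : 0 < |(a : ℝ) - b| := abs_pos.mpr hab
        have hx0 : (h : ℝ) * ((a : ℝ) - b) / k ≠ 0 := by positivity
        have h5 : |(a : ℝ) - b| * (2 * H) ≤ k := by
          have ha1 : (2 : ℝ) * H * a ≤ k := by exact_mod_cast hA a ha
          have hb1 : (2 : ℝ) * H * b ≤ k := by exact_mod_cast hA b hb.1
          have ha2 : (0 : ℝ) ≤ a := Nat.cast_nonneg _
          have hb2 : (0 : ℝ) ≤ b := Nat.cast_nonneg _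
          have hH2 : (0 : ℝ) ≤ H := Nat.cast_nonneg _
          have h6 : (2 : ℝ) * H * a = a * (2 * H) := by ring
          have h7 : (2 : ℝ) * H * b = b * (2 * H) := by ring
          have h8 : 0 ≤ (a : ℝ) * (2 * H) := by positivity
          have h9 : 0 ≤ (b : ℝ) * (2 * H) := by positivity
          rcases abs_cases ((a : ℝ) - b) with ⟨h, _⟩ | ⟨h, _⟩
          · rw [h]
            nlinarith
          · rw [h]
            nlinarith
        have hxabs : |(h : ℝ) * ((a : ℝ) - b) / k| = h * |(a : ℝ) - b| / k := by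
          rw [abs_div, abs_mul, abs_of_pos h0, abs_of_pos hk']
        have hx : |(h : ℝ) * ((a : ℝ) - b) / k| ≤ 1 / 2 := by
          rw [hxabs, div_le_div_iff₀ hk' (by norm_num)]
          have h6 : (h : ℝ) ≤ H := by exact_mod_cast hH
          nlinarith
        refine (norm_sum_Ioc hx hx0 m0 m).trans ?_
        rw [hxabs]
        have h7 : (1 : ℝ) ≤ h := by exact_mod_cast h1
        rw [show (1 : ℝ) / (2 * (h * |(a : ℝ) - b| / k)) = k / 2 * (1 / |(a : ℝ) - b|) * (1 / h) by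
          field_simp]
        have h8 : (1 : ℝ) / h ≤ 1 := by
          rw [div_le_one h0]
          exact h7
        have h9 : 0 ≤ (k : ℝ) / 2 * (1 / |(a : ℝ) - b|) := by positivity
        nlinarith
      refine (Finset.sum_le_sum e8).trans ?_
      rw [← Finset.mul_sum]
      have h9 := sum_inv_sub_le A a
      nlinarith
    linarith
  have e9 : (∑ q ∈ Ioc m0 m, ‖es A k h q‖ ^ 2 : ℝ) =
      ‖((∑ q ∈ Ioc m0 m, ‖es A k h q‖ ^ 2 : ℝ) : ℂ)‖ := by
    rw [Complex.norm_real, Real.norm_of_nonneg]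
    exact Finset.sum_nonneg fun _ _ => by positivity
  rw [e9, e1]
  refine (norm_sum_le _ _).trans ?_
  refine (Finset.sum_le_sum fun a ha => (norm_sum_le _ _).trans (e4 a ha)).trans ?_
  rw [Finset.sum_const, nsmul_eq_mul]

open Classical in
/-- The bad `q`. -/
theorem card_bad (A : Finset ℕ) (k H : ℕ) (hk : 0 < k) (hA : ∀ a ∈ A, 2 * H * a ≤ k) (m0 m : ℕ)
    (d : ℝ) (hd : 0 < d) (hA0 : 0 < A.card) :
    (((Ioc m0 m).filter (fun q => ∃ h, 1 ≤ h ∧ h ≤ H ∧ d * A.card < ‖es A k h q‖)).card : ℝ) * (d ^ 2 * A.card) ≤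
      H * ((m - m0 : ℕ) + k * (1 + Real.log A.card)) := by
  classical
  have hA0' : (0 : ℝ) < A.card := by exact_mod_cast hA0
  have h1 : (Ioc m0 m).filter (fun q => ∃ h, 1 ≤ h ∧ h ≤ H ∧ d * A.card < ‖es A k h q‖) ⊆
      (Icc 1 H).biUnion (fun h => (Ioc m0 m).filter (fun q => d * A.card < ‖es A k h q‖)) := by
    intro q hq
    rw [mem_filter] at hq
    obtain ⟨hq1, h, hh1, hh2, hh3⟩ := hq
    rw [mem_biUnion]
    exact ⟨h, mem_Icc.mpr ⟨hh1, hh2⟩, mem_filter.mpr ⟨hq1, hh3⟩⟩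
  have h2 : (((Ioc m0 m).filter (fun q => ∃ h, 1 ≤ h ∧ h ≤ H ∧ d * A.card < ‖es A k h q‖)).card : ℝ) ≤
      ∑ h ∈ Icc 1 H, (((Ioc m0 m).filter (fun q => d * A.card < ‖es A k h q‖)).card : ℝ) := by
    have h3 := (Finset.card_le_card h1).trans Finset.card_biUnion_le
    exact_mod_cast h3
  have h4 : ∀ h ∈ Icc 1 H, (((Ioc m0 m).filter (fun q => d * A.card < ‖es A k h q‖)).card : ℝ) *
      (d ^ 2 * A.card) ≤ (m - m0 : ℕ) + k * (1 + Real.log A.card) := by
    intro h hh
    rw [mem_Icc] at hh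
    have h5 := second_moment A k H hk hA m0 m h hh.1 hh.2
    have h6 : (((Ioc m0 m).filter (fun q => d * A.card < ‖es A k h q‖)).card : ℝ) * (d * A.card) ^ 2 ≤
        ∑ q ∈ Ioc m0 m, ‖es A k h q‖ ^ 2 := by
      rw [← nsmul_eq_mul]
      refine (Finset.card_nsmul_le_sum _ _ _ ?_).trans
        (Finset.sum_le_sum_of_subset_of_nonneg (Finset.filter_subset _ _) fun _ _ _ => by positivity)
      intro q hq
      have := (mem_filter.mp hq).2
      gcongr
    have h7 : (((Ioc m0 m).filter (fun q => d * A.card < ‖es A k h q‖)).card : ℝ) * (d ^ 2 * A.card) *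
        A.card ≤ ((m - m0 : ℕ) + k * (1 + Real.log A.card)) * A.card := by
      calc _ = (((Ioc m0 m).filter (fun q => d * A.card < ‖es A k h q‖)).card : ℝ) *
            (d * A.card) ^ 2 := by ring
        _ ≤ _ := h6
        _ ≤ _ := h5
        _ = _ := by ring
    exact le_of_mul_le_mul_right h7 hA0'
  calc _ ≤ (∑ h ∈ Icc 1 H, (((Ioc m0 m).filter (fun q => d * A.card < ‖es A k h q‖)).card : ℝ)) *
        (d ^ 2 * A.card) := mul_le_mul_of_nonneg_right h2 (by positivity)
    _ = ∑ h ∈ Icc 1 H, (((Ioc m0 m).filter (fun q => d * A.card < ‖es A k h q‖)).card : ℝ) *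
        (d ^ 2 * A.card) := by rw [Finset.sum_mul]
    _ ≤ ∑ h ∈ Icc 1 H, (((m - m0 : ℕ) : ℝ) + k * (1 + Real.log A.card)) := Finset.sum_le_sum h4
    _ = _ := by
      rw [Finset.sum_const, Nat.card_Icc, nsmul_eq_mul]
      simp

/-- If all exponential sums are small then every arc contains a point. -/
theorem meets (A : Finset ℕ) (hA0 : 0 < A.card) (y : ℕ → ℝ) (H : ℕ) (hH : 0 < H) (r : ℝ) (hr : 0 < r)
    (hHr : 1 ≤ H * r ^ 2) (hsmall : ∀ h, 1 ≤ h → h ≤ H → ‖∑ a ∈ A, ex (h * y a)‖ ≤ 1 / (4 * H) * A.card)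
    (θ : ℝ) : ∃ a ∈ A, ∃ z : ℤ, |y a - θ - z| ≤ r := by
  classical
  by_contra hcon
  push Not at hcon
  have hH' : (0 : ℝ) < H := by exact_mod_cast hH
  have hA0' : (0 : ℝ) < A.card := by exact_mod_cast hA0
  -- upper bound
  have hup : ∑ a ∈ A, ‖∑ i ∈ range H, ex (y a - θ) ^ i‖ ^ 2 ≤ A.card * (1 / (4 * r ^ 2)) := by
    rw [← nsmul_eq_mul]
    refine Finset.sum_le_card_nsmul _ _ _ fun a ha => ?_
    have h1 := hcon a ha (round (y a - θ))
    have h2 := abs_sub_round (y a - θ)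
    have h3 : ex (y a - θ) = ex (y a - θ - (round (y a - θ) : ℤ)) := by
      have h4 : y a - θ = (y a - θ - (round (y a - θ) : ℤ)) + (round (y a - θ) : ℤ) := by ring
      conv_lhs => rw [h4, ex_add, ex_int, mul_one]
    rw [h3]
    have h5 : y a - θ - (round (y a - θ) : ℤ) ≠ 0 := by
      intro h
      rw [h, abs_zero] at h1
      linarith
    have h6 := norm_sum_range h2 h5 H
    have h7 : (1 : ℝ) / (2 * |y a - θ - (round (y a - θ) : ℤ)|) ≤ 1 / (2 * r) := by
      gcongr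
    calc _ ≤ (1 / (2 * r)) ^ 2 := by
          gcongr
          exact h6.trans h7
      _ = _ := by
          rw [div_pow, one_pow]
          congr 1
          ring
  -- lower bound
  have hlow : (A.card : ℝ) * H - H ^ 2 * (1 / (4 * H) * A.card) ≤
      ∑ a ∈ A, ‖∑ i ∈ range H, ex (y a - θ) ^ i‖ ^ 2 := by
    have e1 : ((∑ a ∈ A, ‖∑ i ∈ range H, ex (y a - θ) ^ i‖ ^ 2 : ℝ) : ℂ) =
        ∑ i ∈ range H, ∑ j ∈ range H, ∑ a ∈ A, ex (((i : ℝ) - j) * (y a - θ)) := by
      push_cast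
      have e2 : ∀ a ∈ A, ((‖∑ i ∈ range H, ex (y a - θ) ^ i‖ : ℂ)) ^ 2 =
          ∑ i ∈ range H, ∑ j ∈ range H, ex (((i : ℝ) - j) * (y a - θ)) := by
        intro a _
        have e3 : ((‖∑ i ∈ range H, ex (y a - θ) ^ i‖ : ℂ)) ^ 2 =
            (∑ i ∈ range H, ex (y a - θ) ^ i) * (starRingEnd ℂ) (∑ i ∈ range H, ex (y a - θ) ^ i) := by
          rw [Complex.mul_conj, Complex.normSq_eq_norm_sq]
          push_cast
          rfl
        rw [e3, map_sum, Finset.sum_mul_sum]
        refine Finset.sum_congr rfl fun i _ => Finset.sum_congr rfl fun j _ => ?_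
        rw [← ex_nat_mul, ← ex_nat_mul, conj_ex, ← ex_add]
        congr 1
        ring
      rw [Finset.sum_congr rfl e2, Finset.sum_comm]
      refine Finset.sum_congr rfl fun i _ => ?_
      rw [Finset.sum_comm]
    have e4 : ∀ i ∈ range H, ∀ j ∈ range H, i ≠ j →
        ‖∑ a ∈ A, ex (((i : ℝ) - j) * (y a - θ))‖ ≤ 1 / (4 * H) * A.card := by
      have e5 : ∀ i j : ℕ, j < i → i < H →
          ‖∑ a ∈ A, ex (((i : ℝ) - j) * (y a - θ))‖ ≤ 1 / (4 * H) * A.card := by
        intro i j hij hi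
        have h1 := hsmall (i - j) (by omega) (by omega)
        rw [Nat.cast_sub hij.le] at h1
        have h2 : ∑ a ∈ A, ex (((i : ℝ) - j) * (y a - θ)) =
            ex (-(((i : ℝ) - j) * θ)) * ∑ a ∈ A, ex (((i : ℝ) - j) * y a) := by
          rw [Finset.mul_sum]
          refine Finset.sum_congr rfl fun a _ => ?_
          rw [← ex_add]
          congr 1
          ring
        rw [h2, norm_mul, norm_ex, one_mul]
        exact h1
      intro i hi j hj hij
      rw [mem_range] at hi hj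
      rcases lt_or_gt_of_ne hij with h | h
      · have h1 := e5 j i h hj
        have h2 : ∑ a ∈ A, ex (((i : ℝ) - j) * (y a - θ)) =
            (starRingEnd ℂ) (∑ a ∈ A, ex (((j : ℝ) - i) * (y a - θ))) := by
          rw [map_sum]
          refine Finset.sum_congr rfl fun a _ => ?_
          rw [conj_ex]
          congr 1
          ring
        rw [h2, Complex.norm_conj]
        exact h1
      · exact e5 i j h hi
    have e6 : (∑ i ∈ range H, ∑ j ∈ range H, ∑ a ∈ A, ex (((i : ℝ) - j) * (y a - θ))) =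
        (A.card : ℂ) * H + ∑ i ∈ range H, ∑ j ∈ range H with j ≠ i,
          ∑ a ∈ A, ex (((i : ℝ) - j) * (y a - θ)) := by
      have e7 : ∀ i ∈ range H, ∑ j ∈ range H, ∑ a ∈ A, ex (((i : ℝ) - j) * (y a - θ)) =
          (A.card : ℂ) + ∑ j ∈ range H with j ≠ i, ∑ a ∈ A, ex (((i : ℝ) - j) * (y a - θ)) := by
        intro i hi
        rw [← Finset.sum_filter_add_sum_filter_not (range H) (fun j => j ≠ i), add_comm]
        congr 1
        have e8 : (range H).filter (fun j => ¬ (j ≠ i)) = {i} := by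
          ext j
          simp only [mem_filter, mem_singleton, not_not]
          exact ⟨fun h => h.2, fun h => ⟨h ▸ hi, h⟩⟩
        rw [e8, Finset.sum_singleton, sub_self]
        simp [ex_zero]
      rw [Finset.sum_congr rfl e7, Finset.sum_add_distrib, Finset.sum_const, card_range, nsmul_eq_mul,
        mul_comm (H : ℂ)]
    have e9 : ‖∑ i ∈ range H, ∑ j ∈ range H with j ≠ i,
        ∑ a ∈ A, ex (((i : ℝ) - j) * (y a - θ))‖ ≤ H ^ 2 * (1 / (4 * H) * A.card) := by
      refine (norm_sum_le _ _).trans ?_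
      have e10 : ∀ i ∈ range H, ‖∑ j ∈ range H with j ≠ i,
          ∑ a ∈ A, ex (((i : ℝ) - j) * (y a - θ))‖ ≤ H * (1 / (4 * H) * A.card) := by
        intro i hi
        refine (norm_sum_le _ _).trans ?_
        refine (Finset.sum_le_card_nsmul _ _ _ fun j hj => e4 i hi j (mem_filter.mp hj).1
          (Ne.symm (mem_filter.mp hj).2)).trans ?_
        rw [nsmul_eq_mul]
        have h1 : (((range H).filter (fun j => j ≠ i)).card : ℝ) ≤ H := by
          have := Finset.card_filter_le (range H) (fun j => j ≠ i)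
          rw [card_range] at this
          exact_mod_cast this
        gcongr
      refine (Finset.sum_le_card_nsmul _ _ _ e10).trans ?_
      rw [card_range, nsmul_eq_mul]
      exact le_of_eq (by ring)
    have e11 : (∑ a ∈ A, ‖∑ i ∈ range H, ex (y a - θ) ^ i‖ ^ 2 : ℝ) =
        ‖((∑ a ∈ A, ‖∑ i ∈ range H, ex (y a - θ) ^ i‖ ^ 2 : ℝ) : ℂ)‖ := by
      rw [Complex.norm_real, Real.norm_of_nonneg]
      exact Finset.sum_nonneg fun _ _ => by positivity
    rw [e11, e1, e6]
    have e12 : ‖(A.card : ℂ) * H‖ = (A.card : ℝ) * H := by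
      rw [norm_mul, Complex.norm_natCast, Complex.norm_natCast]
    have e13 := norm_sub_norm_le ((A.card : ℂ) * H) (-(∑ i ∈ range H, ∑ j ∈ range H with j ≠ i,
        ∑ a ∈ A, ex (((i : ℝ) - j) * (y a - θ))))
    rw [sub_neg_eq_add, norm_neg, e12] at e13
    linarith
  have h1 : (A.card : ℝ) * H - H ^ 2 * (1 / (4 * H) * A.card) = (3 / 4) * (A.card * H) := by
    field_simp
    ring
  have h2 : (A.card : ℝ) * (1 / (4 * r ^ 2)) ≤ (1 / 4) * (A.card * H) := by
    have h3 : (1 : ℝ) / (4 * r ^ 2) ≤ (1 / 4) * H := by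
      rw [div_le_iff₀ (by positivity)]
      nlinarith
    nlinarith
  have h3 : (0 : ℝ) < A.card * H := by positivity
  linarith

/-- Steering: there is a good `q` in every set `Q` with more elements than there are bad ones. -/
theorem steer (r : ℝ) (hr : 0 < r) (H : ℕ) (hH : 0 < H) (hHr : 1 ≤ H * r ^ 2) (k : ℕ) (hk : 0 < k) (A : Finset ℕ)
    (hA0 : 0 < A.card) (hA : ∀ a ∈ A, 2 * H * a ≤ k) (m0 m : ℕ) (Q : Finset ℕ) (hQ : Q ⊆ Ioc m0 m)
    (hcard : 16 * (H : ℝ) ^ 3 * ((m - m0 : ℕ) + k * (1 + Real.log A.card)) < Q.card * A.card) :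
    ∃ q ∈ Q, ∀ θ : ℝ, ∃ a ∈ A, ∃ z : ℤ, |(q : ℝ) * a / k - θ - z| ≤ r := by
  classical
  have hH' : (0 : ℝ) < H := by exact_mod_cast hH
  have hA0' : (0 : ℝ) < A.card := by exact_mod_cast hA0
  have h1 := card_bad A k H hk hA m0 m (1 / (4 * H)) (by positivity) hA0
  by_contra hcon
  push Not at hcon
  have h2 : Q ⊆ (Ioc m0 m).filter (fun q => ∃ h, 1 ≤ h ∧ h ≤ H ∧ 1 / (4 * (H : ℝ)) * A.card < ‖es A k h q‖) := by
    intro q hq
    rw [mem_filter]
    refine ⟨hQ hq, ?_⟩
    by_contra hn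
    push Not at hn
    obtain ⟨θ, hθ⟩ := hcon q hq
    obtain ⟨a, ha, z, hz⟩ := meets A hA0 (fun a => (q : ℝ) * a / k) H hH r hr hHr (by
      intro h hh1 hh2
      have h3 := hn h hh1 hh2
      unfold es at h3
      have h4 : ∑ a ∈ A, ex ((h : ℝ) * ((q : ℝ) * a / k)) = ∑ a ∈ A, ex ((h : ℝ) * q * a / k) := by
        refine Finset.sum_congr rfl fun a _ => ?_
        congr 1
        ring
      rw [h4]
      exact h3) θ
    exact absurd hz (not_le.mpr (hθ a ha z))
  have h3 : (Q.card : ℝ) ≤ (((Ioc m0 m).filter (fun q => ∃ h, 1 ≤ h ∧ h ≤ H ∧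
      1 / (4 * (H : ℝ)) * A.card < ‖es A k h q‖)).card : ℝ) := by
    exact_mod_cast Finset.card_le_card h2
  have h4 : (Q.card : ℝ) * ((1 / (4 * (H : ℝ))) ^ 2 * A.card) ≤
      H * ((m - m0 : ℕ) + k * (1 + Real.log A.card)) :=
    (mul_le_mul_of_nonneg_right h3 (by positivity)).trans h1
  have h5 : (Q.card : ℝ) * A.card ≤ 16 * (H : ℝ) ^ 3 * ((m - m0 : ℕ) + k * (1 + Real.log A.card)) := by
    have h6 : (Q.card : ℝ) * A.card = 16 * (H : ℝ) ^ 2 * ((Q.card : ℝ) * ((1 / (4 * (H : ℝ))) ^ 2 * A.card)) := by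
      field_simp
      ring
    rw [h6]
    calc _ ≤ 16 * (H : ℝ) ^ 2 * (H * ((m - m0 : ℕ) + k * (1 + Real.log A.card))) := by gcongr
      _ = _ := by ring
  linarith

end Pool.Agent.Helper60.ZD
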