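import Pool.Agent.Helper60.ZD.Steer
import Pool.Agent.Helper96.PNT

/-!
# Steering with primes
-/

set_option autoImplicit false

namespace Pool.Agent.Helper60.ZD

open Finset Filter Asymptotics

/-- The numbers. -/
theorem steer_num (kap : ℝ) (hk : 0 < kap) (H : ℕ) : ∃ M0 : ℝ, ∀ x : ℝ, M0 ≤ x → 3 ≤ x ∧
    (128 * (H : ℝ) ^ 3 / kap) * (Real.log x * (2 + Real.log x)) < Real.log x ^ 4 ∧
    ∀ Q : ℝ, kap * x ≤ Q → 2 ≤ Q ∧ 1 / 4 * Q / Real.log Q ≤
      (((Icc 1 ⌊Q⌋₊).filter (fun p : ℕ => p.Prime ∧ (1 - 1 / 2) * Q < p)).card : ℝ) := by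
  have h1 : ∀ᶠ x : ℝ in atTop, 1 / 2 / 2 * x / Real.log x ≤
      (((Icc 1 ⌊x⌋₊).filter (fun p : ℕ => p.Prime ∧ (1 - 1 / 2) * x < p)).card : ℝ) :=
    Helper96.PNT.eventually_primes_short (c := 1 / 2) (by norm_num) (by norm_num)
  obtain ⟨X1, hX1⟩ := Filter.eventually_atTop.mp (h1.and (eventually_ge_atTop 2))
  have h2 : ∀ᶠ x : ℝ in atTop, 3 ≤ x ∧
      (128 * (H : ℝ) ^ 3 / kap) * (Real.log x * (2 + Real.log x)) < Real.log x ^ 4 := by
    have h3 : ∀ᶠ x : ℝ in atTop, max 3 (3 * (128 * (H : ℝ) ^ 3 / kap) + 1) ≤ Real.log x :=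
      Real.tendsto_log_atTop.eventually_ge_atTop _
    filter_upwards [h3, eventually_ge_atTop 3] with x hx hx3
    refine ⟨hx3, ?_⟩
    have h4 : 3 ≤ Real.log x := (le_max_left _ _).trans hx
    have h5 : 3 * (128 * (H : ℝ) ^ 3 / kap) + 1 ≤ Real.log x := (le_max_right _ _).trans hx
    have h6 : 0 ≤ 128 * (H : ℝ) ^ 3 / kap := by positivity
    generalize 128 * (H : ℝ) ^ 3 / kap = K at *
    generalize Real.log x = y at *
    have h7 : K * (y * (2 + y)) ≤ K * (y * (3 * y)) := by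
      gcongr
      linarith
    have h8 : K * (y * (3 * y)) ≤ (y - 1) * y ^ 2 := by nlinarith
    have h9 : (y - 1) * y ^ 2 < y ^ 4 := by nlinarith [pow_pos (show (0 : ℝ) < y by linarith) 2]
    linarith
  obtain ⟨X2, hX2⟩ := Filter.eventually_atTop.mp h2
  refine ⟨max X2 (X1 / kap), fun x hx => ⟨(hX2 x ((le_max_left _ _).trans hx)).1,
    (hX2 x ((le_max_left _ _).trans hx)).2, fun Q hQ => ?_⟩⟩
  have h3 : X1 ≤ Q := by
    have h4 := (le_max_right X2 (X1 / kap)).trans hx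
    rw [div_le_iff₀ hk] at h4
    linarith
  obtain ⟨h4, h5⟩ := hX1 Q h3
  refine ⟨h5, ?_⟩
  have : (1 : ℝ) / 2 / 2 = 1 / 4 := by norm_num
  rw [this] at h4
  exact h4

/-- Steering: among many integers `j ≤ A / (2 H)` there are some for which the multiples `q j / A` by a prime `q` are
nearly equally spaced. -/
theorem steer_prime (d : ℝ) (hd : 0 < d) (kap : ℝ) (hk : 0 < kap) (r : ℕ) : ∃ H : ℕ, ∃ M0 : ℝ,
    ∀ A : ℕ, M0 ≤ A → ∀ Q : ℝ, kap * A ≤ Q → Q ≤ A → ∀ AA : Finset ℕ, (∀ j ∈ AA, 2 * H * j ≤ A) →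
      (Real.log A) ^ 4 ≤ AA.card → ∃ q : ℕ, q.Prime ∧ Q / 2 < q ∧ (q : ℝ) ≤ Q ∧
        ∃ j : Fin (r + 1) → ℕ, (∀ i, j i ∈ AA) ∧
          ∀ i, ∃ n : ℤ, |(q : ℝ) * ((j i : ℝ) - j 0) / A - (i : ℕ) / ((r : ℝ) + 1) - n| ≤ d := by
  classical
  set H : ℕ := ⌈1 / d ^ 2⌉₊ with hH
  have hHd : 1 / d ^ 2 ≤ H := Nat.le_ceil _
  have hHr : 1 ≤ (H : ℝ) * d ^ 2 := by
    rw [div_le_iff₀ (by positivity)] at hHd
    exact hHd
  have hH0 : 0 < H := by
    rcases Nat.eq_zero_or_pos H with h | h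
    · rw [h] at hHr
      simp at hHr
      linarith
    · exact h
  obtain ⟨M0, hM0⟩ := steer_num kap hk H
  refine ⟨H, M0, fun A hA Q hQ1 hQ2 AA hAA hcard => ?_⟩
  obtain ⟨hA3, hlog, hprime⟩ := hM0 A hA
  obtain ⟨hQ3, hnum⟩ := hprime Q hQ1
  have hlA : 1 ≤ Real.log A := by
    rw [Real.le_log_iff_exp_le (by linarith)]
    exact (Real.exp_one_lt_d9.le.trans (by norm_num)).trans hA3
  have hAA0 : 0 < AA.card := by
    have : (0 : ℝ) < AA.card := lt_of_lt_of_le (by positivity) hcard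
    exact_mod_cast this
  have hApos : 0 < A := by
    have : (0 : ℝ) < A := by linarith
    exact_mod_cast this
  have hcardA : AA.card ≤ A := by
    have h1 : AA ⊆ range A := by
      intro j hj
      rw [mem_range]
      have h2 := hAA j hj
      have h3 : 2 * j ≤ 2 * H * j := by nlinarith
      have h4 : 3 ≤ A := by exact_mod_cast hA3
      omega
    have := Finset.card_le_card h1
    rwa [card_range] at this
  set P : Finset ℕ := (Icc 1 ⌊Q⌋₊).filter (fun p : ℕ => p.Prime ∧ (1 - 1 / 2) * Q < p) with hP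
  have hPsub : P ⊆ Ioc ⌊Q / 2⌋₊ ⌊Q⌋₊ := by
    intro p hp
    rw [hP, mem_filter, mem_Icc] at hp
    rw [mem_Ioc]
    refine ⟨?_, hp.1.2⟩
    rw [Nat.floor_lt (by linarith)]
    linarith [hp.2.2]
  have hlogcard : Real.log AA.card ≤ Real.log A :=
    Real.log_le_log (by exact_mod_cast hAA0) (by exact_mod_cast hcardA)
  have hAA' : (0 : ℝ) < AA.card := by exact_mod_cast hAA0
  have hA' : (0 : ℝ) < A := by linarith
  have hlQ : 0 < Real.log Q := Real.log_pos (by linarith)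
  have hlQA : Real.log Q ≤ Real.log A := Real.log_le_log (by linarith) hQ2
  have hPcard : kap * A / (4 * Real.log A) ≤ P.card := by
    refine le_trans ?_ hnum
    rw [div_le_div_iff₀ (by positivity) hlQ]
    have h1 : kap * A * Real.log Q ≤ Q * Real.log A := by
      have h2 : 0 ≤ kap * A := by positivity
      nlinarith
    nlinarith
  have hmain : 16 * (H : ℝ) ^ 3 * ((⌊Q⌋₊ - ⌊Q / 2⌋₊ : ℕ) + A * (1 + Real.log AA.card)) <
      P.card * AA.card := by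
    have h1 : ((⌊Q⌋₊ - ⌊Q / 2⌋₊ : ℕ) : ℝ) ≤ A := by
      have h2 : ⌊Q⌋₊ ≤ A := by
        have h3 := Nat.floor_le (show 0 ≤ Q by linarith)
        exact_mod_cast h3.trans hQ2
      exact_mod_cast (Nat.sub_le _ _).trans h2
    have h3 : 16 * (H : ℝ) ^ 3 * ((⌊Q⌋₊ - ⌊Q / 2⌋₊ : ℕ) + A * (1 + Real.log AA.card)) ≤
        16 * (H : ℝ) ^ 3 * (A * (2 + Real.log A)) := by
      gcongr
      nlinarith
    refine h3.trans_lt ?_
    have h4 : kap * A / (4 * Real.log A) * Real.log A ^ 4 ≤ P.card * AA.card := by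
      have h5 : 0 ≤ kap * A / (4 * Real.log A) := by positivity
      gcongr
    refine lt_of_lt_of_le ?_ h4
    have h6 : 16 * (H : ℝ) ^ 3 * (A * (2 + Real.log A)) * (8 / kap * (Real.log A / A)) =
        (128 * (H : ℝ) ^ 3 / kap) * (Real.log A * (2 + Real.log A)) := by
      field_simp
      ring
    have h7 : kap * A / (4 * Real.log A) * Real.log A ^ 4 * (8 / kap * (Real.log A / A)) =
        2 * Real.log A ^ 4 := by
      field_simp
      ring
    have h8 : 0 < 8 / kap * (Real.log A / A) := by positivity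
    rw [← mul_lt_mul_iff_left₀ h8, h6, h7]
    have h9 : 0 < Real.log A ^ 4 := by positivity
    linarith
  obtain ⟨q, hq, harc⟩ := steer d hd H hH0 hHr A hApos AA hAA0 hAA ⌊Q / 2⌋₊ ⌊Q⌋₊ P hPsub hmain
  have hq' := hq
  rw [hP, mem_filter, mem_Icc] at hq'
  obtain ⟨j0, hj0⟩ := Finset.card_pos.mp hAA0
  have h1 : ∀ i : Fin (r + 1), ∃ j ∈ AA, (i = 0 → j = j0) ∧
      ∃ n : ℤ, |(q : ℝ) * ((j : ℝ) - j0) / A - (i : ℕ) / ((r : ℝ) + 1) - n| ≤ d := by
    intro i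
    by_cases hi : i = 0
    · refine ⟨j0, hj0, fun _ => rfl, 0, ?_⟩
      rw [hi]
      simp [hd.le]
    · obtain ⟨a, ha, z, hz⟩ := harc ((q : ℝ) * j0 / A + (i : ℕ) / ((r : ℝ) + 1))
      refine ⟨a, ha, fun h => absurd h hi, z, ?_⟩
      have e1 : (q : ℝ) * ((a : ℝ) - j0) / A - (i : ℕ) / ((r : ℝ) + 1) - z =
          (q : ℝ) * a / A - ((q : ℝ) * j0 / A + (i : ℕ) / ((r : ℝ) + 1)) - z := by ring
      rw [e1]
      exact hz
  choose j hj1 hj2 hj3 using h1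
  refine ⟨q, hq'.2.1, by linarith [hq'.2.2], ?_, j, hj1, fun i => ?_⟩
  · exact (Nat.cast_le.mpr hq'.1.2).trans (Nat.floor_le (by linarith))
  · rw [hj2 0 rfl]
    exact hj3 i

end Pool.Agent.Helper60.ZD
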